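import Mathlib

set_option autoImplicit false

namespace Pool.Agent.S718

/-- the end of the argument: `u` slightly above `sqrt ((m+1)/t)` gives a smooth number in `(m, m+k]` -/
theorem finish (m t u k : ℕ) (A Q : ℝ) (hA : A = Real.sqrt (((m : ℝ) + 1) / t)) (ht : 1 ≤ t) (hQ : 4 ≤ Q)
    (hA2 : 2 ≤ A) (h0 : A ≤ u) (h1 : (u : ℝ) - A ≤ 8 / Q)
    (hk1 : 1 + t * (2 * Real.sqrt (32 * A / Q) + 1) ≤ k) (hk2 : A + 2 + Real.sqrt (32 * A / Q) ≤ k)
    (hk3 : t ≤ k) :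
    ∃ a b c : ℕ, 0 < a ∧ 0 < b ∧ 0 < c ∧ a ≤ k ∧ b ≤ k ∧ c ≤ k ∧ m < a * b * c ∧ a * b * c ≤ m + k := by
  have ht0 : (0:ℝ) < t := by
    have : (1:ℝ) ≤ t := by exact_mod_cast ht
    linarith
  have hm0 : (0:ℝ) ≤ m := Nat.cast_nonneg m
  have hr0 : 0 ≤ A := by linarith
  have hr2 : A ^ 2 = ((m:ℝ) + 1) / t := by rw [hA]; exact Real.sq_sqrt (by positivity)
  have hQ0 : 0 < Q := by linarith
  have hσ : 8 / Q ≤ 2 := by
    rw [div_le_iff₀ hQ0]; linarith
  have hσ0 : 0 < 8 / Q := by positivity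
  have hu0 : (0:ℝ) < u := by linarith
  have huA : (u:ℝ) ≤ A + 2 := by linarith
  -- `M = m / t`
  obtain ⟨M, hM3, hM4⟩ : ∃ M : ℕ, t * M ≤ m ∧ m < t * (M + 1) := by
    have hM1 := Nat.div_add_mod m t
    have hM2 := Nat.mod_lt m (show 0 < t by omega)
    refine ⟨m / t, by omega, by rw [mul_add]; omega⟩
  have hMu : M + 1 ≤ u * u := by
    have h1 : ((m:ℝ) + 1) / t ≤ (u:ℝ) ^ 2 := by
      rw [← hr2]
      exact pow_le_pow_left₀ hr0 h0 2
    rw [div_le_iff₀ ht0] at h1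
    have h2 : (m:ℝ) + 1 ≤ ((u * u * t : ℕ) : ℝ) := by push_cast; nlinarith
    have h3 : m + 1 ≤ u * u * t := by exact_mod_cast h2
    by_contra hc
    push Not at hc
    have h4 : u * u ≤ M := by omega
    have h5 : u * u * t ≤ M * t := Nat.mul_le_mul_right _ h4
    have h6 : M * t = t * M := by ring
    omega
  obtain ⟨D, hD⟩ : ∃ D : ℕ, M + 1 + D = u * u := ⟨u * u - (M + 1), by omega⟩
  have hDr : (D : ℝ) ≤ 32 * A / Q := by
    have e1 : ((M:ℝ) + 1) + D = (u:ℝ) * u := by exact_mod_cast hD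
    have e2 : ((m:ℝ) + 1) / t ≤ (M:ℝ) + 1 := by
      rw [div_le_iff₀ ht0]
      have : m + 1 ≤ t * (M + 1) := hM4
      have h3 : (m:ℝ) + 1 ≤ t * ((M:ℝ) + 1) := by exact_mod_cast this
      linarith
    rw [← hr2] at e2
    have e3 : (D:ℝ) ≤ (u - A) * (u + A) := by nlinarith
    have e4 : (u - A) * (u + A) ≤ 8 / Q * (u + A) := mul_le_mul_of_nonneg_right h1 (by linarith)
    have e5 : 8 / Q * (u + A) ≤ 8 / Q * (4 * A) := mul_le_mul_of_nonneg_left (by linarith) hσ0.le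
    have e6 : 8 / Q * (4 * A) = 32 * A / Q := by ring
    linarith
  obtain ⟨y, hy1, hy2⟩ : ∃ y : ℕ, y * y ≤ D ∧ D < (y + 1) * (y + 1) :=
    ⟨Nat.sqrt D, Nat.sqrt_le D, Nat.sqrt_lt.mp (Nat.lt_succ_self _)⟩
  have hyr : (y:ℝ) ≤ Real.sqrt (32 * A / Q) := by
    apply Real.le_sqrt_of_sq_le
    have : ((y * y : ℕ) : ℝ) ≤ D := by exact_mod_cast hy1
    push_cast at this
    nlinarith
  have hyu : y < u := by
    by_contra hc
    push Not at hc
    have : u * u ≤ y * y := Nat.mul_le_mul hc hc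
    omega
  have hcrit : t * (1 + 2 * y) ≤ k := by
    have e1 : (t:ℝ) * (1 + 2 * y) ≤ k := by
      have : (t:ℝ) * (1 + 2 * y) ≤ t * (2 * Real.sqrt (32 * A / Q) + 1) := by
        apply mul_le_mul_of_nonneg_left _ ht0.le
        linarith
      linarith
    exact_mod_cast e1
  have huy : u + y ≤ k := by
    have e1 : (u:ℝ) + y ≤ k := by linarith
    exact_mod_cast e1
  obtain ⟨w, hw⟩ : ∃ w : ℕ, w + y = u := ⟨u - y, by omega⟩
  have hprod : w * (u + y) + y * y = M + 1 + D := by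
    rw [hD, ← hw]; ring
  obtain ⟨e, he⟩ : ∃ e : ℕ, y * y + e = D := ⟨D - y * y, by omega⟩
  have he2 : e ≤ 2 * y := by nlinarith
  have hprod2 : w * (u + y) = M + 1 + e := by omega
  have hN : t * w * (u + y) = t * (M + 1) + t * e := by
    rw [mul_assoc, hprod2]; ring
  refine ⟨t, w, u + y, ht, by omega, by omega, hk3, by omega, huy, ?_, ?_⟩
  · rw [hN]; omega
  · rw [hN]
    have h7 : t * (M + 1) = t * M + t := by ring
    have h8 : t * e ≤ t * (2 * y) := Nat.mul_le_mul_left t he2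
    have h9 : t * (1 + 2 * y) = t + t * (2 * y) := by ring
    omega

end Pool.Agent.S718
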