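import Mathlib

/-!
# `k(n) ≤ 3 n^{2/5}` (helper32)

Problem MP_b30ba5_nt.  If each of `m+1, …, m+k` (with `m ≤ n`) has a prime factor `> k`, then
`k ≤ 3 n^{2/5}`.  The proof produces, for larger `k`, an integer `t (u-y) (u+y)` in `(m, m+k]` with all
three factors at most `k`.
-/

set_option autoImplicit false

namespace Pool.Agent.S718

/-- `(n,k)` is admissible: there is `m ≤ n` such that each of `m+1, …, m+k` is divisible by some
prime `p > k`. -/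
def Admissible (n k : ℕ) : Prop :=
  ∃ m : ℕ, m ≤ n ∧ ∀ i : ℕ, 1 ≤ i → i ≤ k → ∃ p : ℕ, p.Prime ∧ k < p ∧ p ∣ m + i

/-- a product of three positive integers `≤ k` cannot lie in `(m, m+k]`. -/
lemma no_smooth {m k : ℕ} (h : ∀ i : ℕ, 1 ≤ i → i ≤ k → ∃ p : ℕ, p.Prime ∧ k < p ∧ p ∣ m + i)
    {a b c : ℕ} (ha : 0 < a) (hb : 0 < b) (hc : 0 < c) (hak : a ≤ k) (hbk : b ≤ k) (hck : c ≤ k)
    (h1 : m < a * b * c) (h2 : a * b * c ≤ m + k) : False := by
  obtain ⟨p, hp, hkp, hdvd⟩ := h (a * b * c - m) (by omega) (by omega)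
  have h3 : m + (a * b * c - m) = a * b * c := by omega
  rw [h3] at hdvd
  rcases (Nat.Prime.dvd_mul hp).mp hdvd with h4 | h4
  · rcases (Nat.Prime.dvd_mul hp).mp h4 with h5 | h5
    · have := Nat.le_of_dvd ha h5; omega
    · have := Nat.le_of_dvd hb h5; omega
  · have := Nat.le_of_dvd hc h4; omega

lemma sq_le_of {m k : ℕ} (h : ∀ i : ℕ, 1 ≤ i → i ≤ k → ∃ p : ℕ, p.Prime ∧ k < p ∧ p ∣ m + i) :
    k ^ 2 ≤ m := by
  by_contra hlt
  push Not at hlt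
  rcases Nat.eq_zero_or_pos k with rfl | hk
  · simp at hlt
  have h1 : m / k < k := by
    rw [Nat.div_lt_iff_lt_mul hk]; nlinarith
  have h2 := Nat.div_add_mod m k
  have h3 := Nat.mod_lt m hk
  have h4 : k * (m / k + 1) * 1 = k * (m / k) + k := by ring
  refine no_smooth h (a := k) (b := m / k + 1) (c := 1) hk (Nat.succ_pos _) one_pos le_rfl h1 hk ?_ ?_
  · rw [h4]; omega
  · rw [h4]; omega

lemma two_fifths_main {m k : ℕ} (hk : 243 < k)
    (h : ∀ i : ℕ, 1 ≤ i → i ≤ k → ∃ p : ℕ, p.Prime ∧ k < p ∧ p ∣ m + i) :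
    k ^ 5 ≤ 225 * m ^ 2 := by
  by_contra hlt
  push Not at hlt
  have hkm := sq_le_of h
  have hk0 : 0 < k := by omega
  -- the multiplier
  obtain ⟨t, ht1, ht2, ht0⟩ : ∃ t : ℕ, 4 * m < t * k ^ 2 ∧ t * k ^ 2 ≤ 5 * m ∧ 0 < t := by
    have h1 := Nat.div_add_mod (4 * m) (k ^ 2)
    have h2 := Nat.mod_lt (4 * m) (by positivity : 0 < k ^ 2)
    refine ⟨4 * m / k ^ 2 + 1, ?_, ?_, Nat.succ_pos _⟩
    · rw [add_mul, one_mul, mul_comm (4 * m / k ^ 2) (k ^ 2)]; linarith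
    · have h3 := Nat.zero_le (4 * m % k ^ 2)
      rw [add_mul, one_mul, mul_comm (4 * m / k ^ 2) (k ^ 2)]; linarith
  -- `M = m / t`
  obtain ⟨M, hM3, hM4⟩ : ∃ M : ℕ, t * M ≤ m ∧ m < t * (M + 1) := by
    have hM1 := Nat.div_add_mod m t
    have hM2 := Nat.mod_lt m ht0
    refine ⟨m / t, by omega, by rw [mul_add]; omega⟩
  have hMk : 4 * M < k ^ 2 := by
    by_contra hc
    push Not at hc
    have : t * k ^ 2 ≤ t * (4 * M) := Nat.mul_le_mul_left t hc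
    have h2 : t * (4 * M) = 4 * (t * M) := by ring
    omega
  -- the square roots
  obtain ⟨s, hs1, hs2⟩ : ∃ s : ℕ, s * s ≤ M ∧ M < (s + 1) * (s + 1) :=
    ⟨Nat.sqrt M, Nat.sqrt_le M, Nat.sqrt_lt.mp (Nat.lt_succ_self _)⟩
  have hsk : 2 * s < k := by nlinarith
  obtain ⟨D, hD⟩ : ∃ D : ℕ, M + 1 + D = (s + 1) * (s + 1) := ⟨(s + 1) * (s + 1) - (M + 1), by omega⟩
  have hDs : D ≤ 2 * s := by nlinarith
  obtain ⟨y, hy1, hy2⟩ : ∃ y : ℕ, y * y ≤ D ∧ D < (y + 1) * (y + 1) :=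
    ⟨Nat.sqrt D, Nat.sqrt_le D, Nat.sqrt_lt.mp (Nat.lt_succ_self _)⟩
  have hyk : y * y < k := by omega
  have hyu : y < s + 1 := by
    by_contra hc
    push Not at hc
    have : (s + 1) * (s + 1) ≤ y * y := Nat.mul_le_mul hc hc
    omega
  -- the crucial size estimate
  have hcrit : t * (1 + 2 * y) ≤ k := by
    by_contra hc
    push Not at hc
    have h1 : (1 + 2 * y) ^ 2 ≤ 9 * k := by
      rcases Nat.eq_zero_or_pos y with rfl | hy
      · omega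
      · nlinarith
    have h2 : k ^ 2 < t ^ 2 * (1 + 2 * y) ^ 2 := by
      have := Nat.pow_lt_pow_left hc (two_ne_zero)
      rwa [mul_pow] at this
    have h3 : (t * k ^ 2) ^ 2 ≤ (5 * m) ^ 2 := Nat.pow_le_pow_left ht2 2
    have h4 : k ^ 2 * k ^ 4 < 225 * m ^ 2 * k := by
      calc k ^ 2 * k ^ 4 < t ^ 2 * (1 + 2 * y) ^ 2 * k ^ 4 := Nat.mul_lt_mul_of_pos_right h2 (by positivity)
        _ ≤ t ^ 2 * (9 * k) * k ^ 4 := by gcongr
        _ = (t * k ^ 2) ^ 2 * (9 * k) := by ring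
        _ ≤ (5 * m) ^ 2 * (9 * k) := by gcongr
        _ = 225 * m ^ 2 * k := by ring
    have h5 : 225 * m ^ 2 * k < k ^ 5 * k := Nat.mul_lt_mul_of_pos_right hlt hk0
    have h6 : k ^ 2 * k ^ 4 = k ^ 5 * k := by ring
    omega
  have htk : t ≤ k := by nlinarith
  have hsy : s + 1 + y ≤ k := by
    have : 2 * y + 1 ≤ k := by nlinarith
    omega
  -- the smooth number
  obtain ⟨w, hw⟩ : ∃ w : ℕ, w + y = s + 1 := ⟨s + 1 - y, by omega⟩
  have hprod : w * (s + 1 + y) + y * y = M + 1 + D := by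
    rw [hD, ← hw]; ring
  obtain ⟨e, he⟩ : ∃ e : ℕ, y * y + e = D := ⟨D - y * y, by omega⟩
  have he2 : e ≤ 2 * y := by nlinarith
  have hprod2 : w * (s + 1 + y) = M + 1 + e := by omega
  have hN : t * w * (s + 1 + y) = t * (M + 1) + t * e := by
    rw [mul_assoc, hprod2]; ring
  refine no_smooth h (a := t) (b := w) (c := s + 1 + y) ht0 (by omega) (by omega) htk (by omega) hsy ?_ ?_
  · rw [hN]; omega
  · rw [hN]
    have h7 : t * (M + 1) = t * M + t := by ring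
    have h8 : t * e ≤ t * (2 * y) := Nat.mul_le_mul_left t he2
    have h9 : t * (1 + 2 * y) = t + t * (2 * y) := by ring
    omega

/-- **`k(n) ≤ 3 n^{2/5}`**: if `(n,k)` is admissible and `n ≥ 1` then `k ≤ 3 n^{2/5}`. -/
theorem two_fifths (n k : ℕ) (h : Admissible n k) : (k : ℝ) ≤ 3 * (n : ℝ) ^ (2 / 5 : ℝ) := by
  obtain ⟨m, hmn, h⟩ := h
  have hkm := sq_le_of h
  have key : k ^ 5 ≤ 243 * n ^ 2 := by
    rcases le_or_gt k 243 with hk | hk
    · calc k ^ 5 = k * (k ^ 2) ^ 2 := by ring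
        _ ≤ 243 * n ^ 2 := by
          gcongr
          exact hkm.trans hmn
    · calc k ^ 5 ≤ 225 * m ^ 2 := two_fifths_main hk h
        _ ≤ 243 * n ^ 2 := by gcongr; norm_num
  have hn0 : (0 : ℝ) ≤ n := Nat.cast_nonneg n
  have h1 : ((k : ℝ)) ^ 5 ≤ (3 * (n : ℝ) ^ (2 / 5 : ℝ)) ^ 5 := by
    have h2 : (3 * (n : ℝ) ^ (2 / 5 : ℝ)) ^ 5 = 243 * (n : ℝ) ^ 2 := by
      rw [mul_pow, ← Real.rpow_natCast ((n : ℝ) ^ (2 / 5 : ℝ)), ← Real.rpow_mul hn0]
      norm_num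
    rw [h2]
    exact_mod_cast key
  exact le_of_pow_le_pow_left₀ (by norm_num) (by positivity) h1

end Pool.Agent.S718
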