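import Pool.Agent.S718.Choice
import Pool.Agent.S718.Finish
import Pool.Agent.S718.Two

set_option autoImplicit false

/-!
`k < 12 √(M / T)`, and the choice of `Q` and `T`.
-/

namespace Pool.Agent.S718

theorem bound_T {m k : ℕ} (h : ∀ i : ℕ, 1 ≤ i → i ≤ k → ∃ p : ℕ, p.Prime ∧ k < p ∧ p ∣ m + i)
    (T w : ℝ) (j : ℕ) (hw : 12 * (2 ^ (j + 2)) ^ 2 ≤ w) (hTw : T = w ^ 2)
    (hT : 3 * 2 ^ (j + 2) / 4 * Real.sqrt (((m : ℝ) + 1) / T) = T ^ 2) :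
    (k : ℝ) < 12 * Real.sqrt (((m : ℝ) + 1) / T) := by
  by_contra hlt
  push Not at hlt
  obtain ⟨t, z, ht1, ht2, hz0, hz1⟩ := choice ((m : ℝ) + 1) T w j hw hTw hT
  have hQ4 : (4 : ℝ) ≤ 2 ^ (j + 2) := by
    have : (1 : ℝ) ≤ 2 ^ j := one_le_pow₀ (by norm_num)
    rw [pow_add]; linarith
  obtain ⟨Q, hQdef⟩ : ∃ Q : ℝ, Q = 2 ^ (j + 2) := ⟨_, rfl⟩
  rw [← hQdef] at hw hT hQ4 ht2 hz1
  have hQ0 : 0 < Q := by linarith
  have hw192 : 192 ≤ w := by nlinarith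
  have hwQ : 12 * Q ≤ w := by nlinarith
  have hT0 : 0 < T := by rw [hTw]; positivity
  have hM0 : (0 : ℝ) < (m : ℝ) + 1 := by positivity
  set AT := Real.sqrt (((m : ℝ) + 1) / T) with hAT
  have hAT0 : 0 ≤ AT := Real.sqrt_nonneg _
  have hATT : 16 * T ≤ AT := by
    have h1 : 3 * Q / 4 * AT ≤ w / 16 * AT := mul_le_mul_of_nonneg_right (by linarith) hAT0
    have h2 : T ^ 2 ≤ w / 16 * AT := by linarith
    have h3 : w / 16 * (16 * T) ≤ w / 16 * AT := by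
      refine le_trans ?_ h2
      rw [hTw]
      nlinarith [pow_pos (by linarith : 0 < w) 3]
    exact le_of_mul_le_mul_left h3 (by linarith)
  have hTbig : 36864 ≤ T := by rw [hTw]; nlinarith
  have ht11 : (t : ℝ) ≤ 11 / 10 * T := by
    have : 3 / 2 * w + 3 + 2 * Q ≤ 1 / 10 * T := by rw [hTw]; nlinarith
    linarith
  have ht0 : (0 : ℝ) < t := by linarith
  have hAle : Real.sqrt (((m : ℝ) + 1) / t) ≤ AT :=
    Real.sqrt_le_sqrt (div_le_div_of_nonneg_left hM0.le hT0 ht1)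
  have hAge : AT / 2 ≤ Real.sqrt (((m : ℝ) + 1) / t) := by
    apply Real.le_sqrt_of_sq_le
    rw [div_pow, hAT, Real.sq_sqrt (by positivity), div_div]
    exact div_le_div_of_nonneg_left hM0.le ht0 (by linarith)
  have hzpos : (0 : ℝ) < z := by linarith
  have hz' : 0 < z := by exact_mod_cast hzpos
  obtain ⟨u, rfl⟩ : ∃ u : ℕ, z = u := ⟨z.toNat, (Int.toNat_of_nonneg hz'.le).symm⟩
  rw [Int.cast_natCast] at hz0 hz1
  -- the square root
  have hs : Real.sqrt (32 * Real.sqrt (((m : ℝ) + 1) / t) / Q) ≤ 49 / 10 * AT / T := by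
    apply Real.sqrt_le_iff.mpr
    refine ⟨by positivity, ?_⟩
    have h1 : 32 * Real.sqrt (((m : ℝ) + 1) / t) / Q ≤ 32 * AT / Q := by gcongr
    refine h1.trans ?_
    rw [div_pow, div_le_div_iff₀ hQ0 (by positivity)]
    have h2 : (49 / 10 * AT) ^ 2 * Q = 2401 / 100 * (4 / 3) * AT * (3 * Q / 4 * AT) := by ring
    rw [h2, hT]
    have : 0 ≤ AT * T ^ 2 := by positivity
    nlinarith
  have hs2 : (t : ℝ) * (2 * Real.sqrt (32 * Real.sqrt (((m : ℝ) + 1) / t) / Q) + 1) ≤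
      11 / 10 * (49 / 5 * AT) + 11 / 10 * T := by
    calc (t : ℝ) * (2 * Real.sqrt (32 * Real.sqrt (((m : ℝ) + 1) / t) / Q) + 1)
        ≤ (11 / 10 * T) * (2 * (49 / 10 * AT / T) + 1) := by gcongr
      _ = 11 / 10 * (49 / 5 * AT) + 11 / 10 * T := by field_simp; ring
  have hs3 : 49 / 10 * AT / T ≤ AT := by
    rw [div_le_iff₀ hT0]
    nlinarith
  obtain ⟨a, b, c, ha, hb, hc, hak, hbk, hck, h1, h2⟩ := finish m t u k _ Q rfl
    (by exact_mod_cast (by linarith : (1 : ℝ) ≤ t)) hQ4 (by linarith) (by linarith)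
    (hz1.trans (div_le_div_of_nonneg_right (by norm_num) hQ0.le))
    (by linarith) (by linarith) (by exact_mod_cast (by linarith : (t : ℝ) ≤ k))
  exact no_smooth h ha hb hc hak hbk hck h1 h2

/-- the powers of two and the point `T` -/
theorem exists_QT (M : ℝ) (hM : 16 / 9 * 144 ^ 5 * 4 ^ 18 ≤ M) :
    ∃ (j : ℕ) (T w : ℝ), 12 * (2 ^ (j + 2)) ^ 2 ≤ w ∧ T = w ^ 2 ∧
      3 * 2 ^ (j + 2) / 4 * Real.sqrt (M / T) = T ^ 2 ∧
      Real.sqrt (M / T) ≤ 17 / 10 * M ^ (7 / 18 : ℝ) := by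
  have hM0 : 0 < M := lt_of_lt_of_le (by norm_num) hM
  obtain ⟨j, hj1, hj2⟩ := exists_nat_pow_near (x := M / (16 / 9 * 144 ^ 5 * 4 ^ 18))
    (y := (2 : ℝ) ^ 18) (by rw [le_div_iff₀ (by norm_num)]; linarith) (by norm_num)
  rw [le_div_iff₀ (by norm_num)] at hj1
  rw [div_lt_iff₀ (by norm_num)] at hj2
  obtain ⟨Q, hQdef⟩ : ∃ Q : ℝ, Q = 2 ^ (j + 2) := ⟨_, rfl⟩
  have hQ0 : 0 < Q := by rw [hQdef]; positivity
  have hQ18 : Q ^ 18 = ((2 : ℝ) ^ 18) ^ j * 4 ^ 18 := by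
    rw [hQdef, ← pow_mul, ← pow_mul, add_mul, pow_add, mul_comm j 18]
    norm_num
  have hlow : 16 / 9 * 144 ^ 5 * Q ^ 18 ≤ M := by rw [hQ18]; linarith
  have hhigh : M < 16 / 9 * 144 ^ 5 * 2 ^ 18 * Q ^ 18 := by
    rw [hQ18]; rw [pow_succ] at hj2; linarith
  set T : ℝ := (9 * Q ^ 2 * M / 16) ^ (1 / 5 : ℝ) with hTdef
  have hB0 : 0 < 9 * Q ^ 2 * M / 16 := by positivity
  have hT0 : 0 < T := Real.rpow_pos_of_pos hB0 _
  have hT5 : T ^ 5 = 9 * Q ^ 2 * M / 16 := by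
    rw [hTdef, ← Real.rpow_natCast, ← Real.rpow_mul hB0.le]
    norm_num
  have hTQ : 144 * Q ^ 4 ≤ T := by
    refine (pow_le_pow_iff_left₀ (by positivity) hT0.le (n := 5) (by norm_num)).mp ?_
    rw [hT5]
    have h1 : (144 * Q ^ 4) ^ 5 = 9 / 16 * Q ^ 2 * (16 / 9 * 144 ^ 5 * Q ^ 18) := by ring
    rw [h1]
    have h2 : 9 / 16 * Q ^ 2 * (16 / 9 * 144 ^ 5 * Q ^ 18) ≤ 9 / 16 * Q ^ 2 * M :=
      mul_le_mul_of_nonneg_left hlow (by positivity)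
    linarith
  refine ⟨j, T, Real.sqrt T, ?_, (Real.sq_sqrt hT0.le).symm, ?_, ?_⟩
  · rw [← hQdef]
    apply Real.le_sqrt_of_sq_le
    linarith
  · rw [← hQdef]
    refine (pow_left_inj₀ (by positivity) (by positivity) (n := 2) (by norm_num)).mp ?_
    rw [mul_pow, Real.sq_sqrt (by positivity)]
    have h1 : T ^ 5 * 1 = 9 * Q ^ 2 * M / 16 := by rw [mul_one]; exact hT5
    field_simp
    field_simp at hT5
    linear_combination (-1) * hT5
  · refine (pow_le_pow_iff_left₀ (by positivity) (by positivity) (n := 90) (by norm_num)).mp ?_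
    have h1 : Real.sqrt (M / T) ^ 90 = (M / T) ^ 45 := by
      rw [show (90 : ℕ) = 2 * 45 by norm_num, pow_mul, Real.sq_sqrt (by positivity)]
    have h2 : (17 / 10 * M ^ (7 / 18 : ℝ)) ^ 90 = (17 / 10) ^ 90 * M ^ 35 := by
      rw [mul_pow, ← Real.rpow_natCast (M ^ (7 / 18 : ℝ)), ← Real.rpow_mul hM0.le]
      norm_num
    rw [h1, h2, div_pow, div_le_iff₀ (by positivity)]
    have h3 : T ^ 45 = (9 / 16) ^ 9 * Q ^ 18 * M ^ 9 := by
      rw [show (45 : ℕ) = 5 * 9 by norm_num, pow_mul, hT5]; ring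
    rw [h3]
    have h4 : M ^ 45 = M ^ 44 * M := by ring
    have h5 : (17 / 10 : ℝ) ^ 90 * M ^ 35 * ((9 / 16) ^ 9 * Q ^ 18 * M ^ 9) =
        M ^ 44 * ((17 / 10 : ℝ) ^ 90 * (9 / 16) ^ 9 * Q ^ 18) := by ring
    rw [h4, h5]
    apply mul_le_mul_of_nonneg_left _ (by positivity)
    refine hhigh.le.trans ?_
    apply mul_le_mul_of_nonneg_right _ (by positivity)
    norm_num

end Pool.Agent.S718
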