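import Mathlib

set_option autoImplicit false

namespace Pool.Agent.S718

lemma sq_mod (a : ℤ) (ha : a % 8 = 1) (j : ℕ) (hj : 3 ≤ j) :
    ∃ x : ℤ, x % 2 = 1 ∧ (2 : ℤ) ^ j ∣ x ^ 2 - a := by
  induction j, hj using Nat.le_induction with
  | base => exact ⟨1, by norm_num, by norm_num; omega⟩
  | succ j hj ih =>
    obtain ⟨x, hx, k, hk⟩ := ih
    rcases Int.even_or_odd k with ⟨l, hl⟩ | ⟨l, hl⟩
    · exact ⟨x, hx, l, by rw [hk, hl, pow_succ]; ring⟩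
    · obtain ⟨i, rfl⟩ : ∃ i, j = i + 3 := ⟨j - 3, by omega⟩
      have hx2 : x = 2 * (x / 2) + 1 := by omega
      refine ⟨x + 2 ^ (i + 2), ?_, ?_⟩
      · have : (2:ℤ) ^ (i + 2) = 2 * 2 ^ (i + 1) := by rw [pow_succ]; ring
        omega
      · refine ⟨l + x / 2 + 1 + 2 ^ i, ?_⟩
        have e1 : (x + 2 ^ (i + 2)) ^ 2 - a = (x ^ 2 - a) + 2 ^ (i + 3) * x + 2 ^ (i + 2) * 2 ^ (i + 2) := by
          rw [pow_succ (2:ℤ) (i + 2)]; ring
        have e2 : (2:ℤ) ^ (i + 2) * 2 ^ (i + 2) = 2 ^ (i + 3 + 1) * 2 ^ i := by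
          rw [← pow_add, ← pow_add]; congr 1; ring
        rw [e1, hk, e2, hl]
        have e3 : (2:ℤ) ^ (i + 3) * (2 * l + 1) + 2 ^ (i + 3) * x = 2 ^ (i + 3 + 1) * (l + x / 2 + 1) := by
          rw [pow_succ (2:ℤ) (i + 3)]
          have : x = 2 * (x / 2) + 1 := hx2
          generalize x / 2 = y at *
          subst this
          ring
        rw [e3]
        ring

/-- for every shift `P` the squares `(r + P)^2`, `0 <= r < 2^j`, meet every class `1 mod 8` -/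
lemma exists_r (j : ℕ) (hj : 3 ≤ j) (P a : ℤ) (ha : a % 8 = 1) :
    ∃ r : ℕ, r < 2 ^ j ∧ (2 : ℤ) ^ j ∣ ((r : ℤ) + P) ^ 2 - a := by
  obtain ⟨x, -, hx⟩ := sq_mod a ha j hj
  have hpos : (0:ℤ) < 2 ^ j := by positivity
  refine ⟨((x - P) % 2 ^ j).toNat, ?_, ?_⟩
  · have h1 := Int.emod_lt_of_pos (x - P) hpos
    have h2 := Int.emod_nonneg (x - P) hpos.ne'
    have h3 : (((x - P) % 2 ^ j).toNat : ℤ) = (x - P) % 2 ^ j := Int.toNat_of_nonneg h2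
    have h4 : (((x - P) % 2 ^ j).toNat : ℤ) < ((2 ^ j : ℕ) : ℤ) := by
      rw [h3]; push_cast; exact h1
    exact_mod_cast h4
  · have h2 := Int.emod_nonneg (x - P) hpos.ne'
    have h3 : (((x - P) % 2 ^ j).toNat : ℤ) = (x - P) % 2 ^ j := Int.toNat_of_nonneg h2
    rw [h3]
    have h5 := Int.emod_add_mul_ediv (x - P) (2 ^ j)
    have h6 : (x - P) % 2 ^ j + P = x - 2 ^ j * ((x - P) / 2 ^ j) := by linarith
    rw [h6]
    have h7 : (x - 2 ^ j * ((x - P) / 2 ^ j)) ^ 2 - a =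
        (x ^ 2 - a) + 2 ^ j * (2 ^ j * ((x - P) / 2 ^ j) ^ 2 - 2 * x * ((x - P) / 2 ^ j)) := by ring
    rw [h7]
    exact dvd_add hx (dvd_mul_right _ _)

/-- the fractional part can be steered -/
lemma steer (j : ℕ) (hj : 3 ≤ j) (P : ℤ) (θ : ℝ) :
    ∃ r : ℕ, r < 2 ^ j ∧ ∃ z : ℤ, 0 ≤ (z : ℝ) - (θ + ((r : ℝ) ^ 2 + 2 * P * r) / 2 ^ j) ∧
      (z : ℝ) - (θ + ((r : ℝ) ^ 2 + 2 * P * r) / 2 ^ j) ≤ 8 / 2 ^ j := by
  have hp : (0:ℝ) < 2 ^ j := by positivity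
  -- choose c with the class just below
  set w : ℝ := 2 ^ j * θ - (P:ℝ) ^ 2 with hw
  -- want z 2^j - w - (r+P)^2 in [0, 8]
  set c : ℤ := ⌊(-w - 1) / 8⌋ with hc
  have h1 : (c : ℝ) ≤ (-w - 1) / 8 := Int.floor_le _
  have h2 : (-w - 1) / 8 < c + 1 := Int.lt_floor_add_one _
  obtain ⟨r, hr, k, hk⟩ := exists_r j hj P (8 * c + 1) (by omega)
  refine ⟨r, hr, k, ?_⟩
  have h3 : (((r:ℝ) + P) ^ 2 - (8 * c + 1)) = 2 ^ j * k := by exact_mod_cast hk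
  have h4 : (k : ℝ) - (θ + ((r : ℝ) ^ 2 + 2 * P * r) / 2 ^ j) = (-w - (8 * c + 1)) / 2 ^ j := by
    have h5 : (r:ℝ) ^ 2 + 2 * P * r = 2 ^ j * k + (8 * c + 1) - (P:ℝ) ^ 2 := by
      rw [← h3]; ring
    rw [h5, hw]
    field_simp
    ring
  rw [h4]
  constructor
  · apply div_nonneg _ hp.le
    linarith
  · apply div_le_div_of_nonneg_right _ hp.le
    linarith

end Pool.Agent.S718
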