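import Pool.Agent.S718.Vee
import Pool.Agent.S718.Steer

set_option autoImplicit false

/-!
The choice of the multiplier `t`.
-/

namespace Pool.Agent.S718

/-- scaling of `√(M / t)` -/
lemma A_scale (M t z : ℝ) (ht : 0 < t) (hz : 0 ≤ z) :
    Real.sqrt (M / (t * (1 + z))) = Real.sqrt (M / t) * v z := by
  unfold v
  rw [← div_div, Real.sqrt_div' _ (by linarith : (0 : ℝ) ≤ 1 + z)]
  ring

lemma A_add (M t r : ℝ) (ht : 0 < t) (hr : 0 ≤ r) :
    Real.sqrt (M / (t + r)) = Real.sqrt (M / t) * v (r / t) := by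
  rw [← A_scale M t (r / t) ht (by positivity)]
  congr 2
  field_simp

/-- normalised second derivative -/
noncomputable def kap (M Q t : ℝ) : ℝ := 3 * Q / 4 * Real.sqrt (M / t) / t ^ 2

/-- normalised first derivative -/
noncomputable def bet (M Q t : ℝ) : ℝ := Q / 2 * Real.sqrt (M / t) / t

lemma kap_eq (M Q T t : ℝ) (hT : 0 < T) (hQ : 3 * Q / 4 * Real.sqrt (M / T) = T ^ 2) (ht : T ≤ t) :
    kap M Q t = v ((t - T) / T) ^ 5 := by
  have hz : 0 ≤ (t - T) / T := div_nonneg (by linarith) hT.le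
  have h1 : Real.sqrt (M / t) = Real.sqrt (M / T) * v ((t - T) / T) := by
    have := A_add M T (t - T) hT (by linarith)
    rwa [add_sub_cancel] at this
  have h2 := v_sq hz
  have h3 : t = T * (1 + (t - T) / T) := by field_simp; ring
  unfold kap
  rw [h1]
  generalize (t - T) / T = z at *
  rw [h3]
  have h4 : 3 * Q / 4 * (Real.sqrt (M / T) * v z) = T ^ 2 * v z := by rw [← hQ]; ring
  rw [h4, mul_pow, mul_div_mul_left _ _ (by positivity)]
  have h5 : (0 : ℝ) < 1 + z := by linarith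
  rw [div_eq_iff (by positivity)]
  calc v z = v z * (v z ^ 2 * (1 + z)) ^ 2 := by rw [h2]; ring
    _ = v z ^ 5 * (1 + z) ^ 2 := by ring

lemma bet_step (M Q t : ℝ) (hQ : 0 ≤ Q) (ht : 2 ≤ t) :
    kap M Q t * (1 - 5 / 4 / t) ≤ bet M Q t - bet M Q (t + 1) ∧
      bet M Q t - bet M Q (t + 1) ≤ kap M Q t := by
  have ht0 : 0 < t := by linarith
  have hz : 0 ≤ 1 / t := by positivity
  have hz1 : 1 / t ≤ 1 / 2 := by
    rw [div_le_div_iff₀ ht0 (by norm_num)]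
    linarith
  obtain ⟨h1, h2⟩ := v3_bounds hz hz1
  have h3 := v_sq hz
  have h4 : bet M Q (t + 1) = bet M Q t * v (1 / t) ^ 3 := by
    unfold bet
    rw [A_add M t 1 ht0 (by norm_num)]
    have h5 : t + 1 = t * (1 + 1 / t) := by field_simp
    rw [h5]
    generalize 1 / t = z at *
    have h6 : (0 : ℝ) < 1 + z := by linarith
    rw [div_eq_iff (by positivity)]
    field_simp
    calc Q * Real.sqrt (M / t) * v z = Q * Real.sqrt (M / t) * v z * (v z ^ 2 * (1 + z)) := by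
          rw [h3]; ring
      _ = _ := by ring
  have hb : 0 ≤ bet M Q t := by unfold bet; positivity
  have h5 : kap M Q t = bet M Q t * (3 / 2 * (1 / t)) := by
    unfold kap bet
    field_simp
    ring
  have h6 : kap M Q t * (5 / 4 / t) = bet M Q t * (15 / 8 * (1 / t) ^ 2) := by
    rw [h5]
    field_simp
    ring
  have h7 : bet M Q t - bet M Q (t + 1) = bet M Q t * (1 - v (1 / t) ^ 3) := by rw [h4]; ring
  rw [h7]
  constructor
  · have : kap M Q t * (1 - 5 / 4 / t) = bet M Q t * (3 / 2 * (1 / t) - 15 / 8 * (1 / t) ^ 2) := by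
      rw [mul_sub, h6, h5]; ring
    rw [this]
    exact mul_le_mul_of_nonneg_left (by linarith) hb
  · rw [h5]
    exact mul_le_mul_of_nonneg_left (by linarith) hb

lemma y_small {w x : ℝ} (hw : 192 ≤ w) (h0 : 0 ≤ x) (hx : x ≤ 3 / 2 * w + 3) :
    0 ≤ x / w ^ 2 ∧ x / w ^ 2 ≤ 1 / 10 ∧ 5 / 2 * (x / w ^ 2) + 5 / 4 / w ^ 2 ≤ 4 / w := by
  have hw0 : 0 < w := by linarith
  refine ⟨by positivity, ?_, ?_⟩
  · rw [div_le_div_iff₀ (by positivity) (by norm_num)]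
    nlinarith
  · have h1 : 5 / 2 * (x / w ^ 2) + 5 / 4 / w ^ 2 = (5 / 2 * x + 5 / 4) / w ^ 2 := by ring
    rw [h1, div_le_div_iff₀ (by positivity) hw0]
    nlinarith

theorem pick (M Q T w : ℝ) (hQ : 0 ≤ Q) (hw : 192 ≤ w) (hTw : T = w ^ 2)
    (hT : 3 * Q / 4 * Real.sqrt (M / T) = T ^ 2) :
    ∃ (t0 : ℕ) (P : ℤ) (e : ℝ), T ≤ t0 ∧ (t0 : ℝ) - T ≤ 3 / 2 * w + 3 ∧ 0 ≤ e ∧ e ≤ 4 / w ∧
      bet M Q t0 = -P - e := by
  have hw0 : 0 < w := by linarith
  have hT0 : 0 < T := by rw [hTw]; positivity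
  have hT2 : 2 ≤ T := by rw [hTw]; nlinarith
  set T1 : ℕ := ⌈T⌉₊ with hT1
  have hT1a : T ≤ T1 := Nat.le_ceil T
  have hT1b : (T1 : ℝ) < T + 1 := Nat.ceil_lt_add_one hT0.le
  set X : ℕ := ⌈3 / 2 * w⌉₊ + 1 with hX
  have hXa : 3 / 2 * w + 1 ≤ (X : ℝ) := by
    have := Nat.le_ceil (3 / 2 * w)
    rw [hX]; push_cast; linarith
  have hXb : (X : ℝ) < 3 / 2 * w + 2 := by
    have := Nat.ceil_lt_add_one (by positivity : 0 ≤ 3 / 2 * w)
    rw [hX]; push_cast; linarith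
  -- the walk
  set G : ℕ → ℝ := fun x => bet M Q ((T1 + x : ℕ) : ℝ) + x with hG
  have hstep : ∀ x ≤ X, (x : ℝ) / T ≤ G (x + 1) - G x ∧ G (x + 1) - G x ≤ 4 / w := by
    intro x hx
    have hxX : (x : ℝ) ≤ X := by exact_mod_cast hx
    have ht : T ≤ ((T1 + x : ℕ) : ℝ) := by push_cast; linarith [(Nat.cast_nonneg x : (0 : ℝ) ≤ x)]
    have ht2 : (x : ℝ) ≤ ((T1 + x : ℕ) : ℝ) - T := by push_cast; linarith
    have ht3 : ((T1 + x : ℕ) : ℝ) - T ≤ 3 / 2 * w + 3 := by push_cast; linarith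
    have h1 := bet_step M Q ((T1 + x : ℕ) : ℝ) hQ (hT2.trans ht)
    have h2 := kap_eq M Q T ((T1 + x : ℕ) : ℝ) hT0 hT ht
    obtain ⟨y0, y1, y2⟩ := y_small hw (by linarith : 0 ≤ ((T1 + x : ℕ) : ℝ) - T) ht3
    rw [← hTw] at y0 y1 y2
    obtain ⟨k1, k2⟩ := v5_bounds y0 y1
    rw [← h2] at k1 k2
    have h3 : G (x + 1) - G x = 1 - (bet M Q ((T1 + x : ℕ) : ℝ) - bet M Q (((T1 + x : ℕ) : ℝ) + 1)) := by
      simp only [hG]
      push_cast
      rw [← add_assoc]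
      ring
    rw [h3]
    constructor
    · have : (x : ℝ) / T ≤ (((T1 + x : ℕ) : ℝ) - T) / T := div_le_div_of_nonneg_right ht2 hT0.le
      linarith [h1.2]
    · have ht0 : (0 : ℝ) < ((T1 + x : ℕ) : ℝ) := by linarith
      have h4 : 5 / 4 / ((T1 + x : ℕ) : ℝ) ≤ 5 / 4 / T := div_le_div_of_nonneg_left (by norm_num) hT0 ht
      have h5 : kap M Q ((T1 + x : ℕ) : ℝ) * (5 / 4 / ((T1 + x : ℕ) : ℝ)) ≤ 1 * (5 / 4 / T) :=
        mul_le_mul (by linarith) h4 (by positivity) (by norm_num)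
      have h6 := h1.1
      rw [mul_sub, mul_one] at h6
      linarith
  have hsum : ∀ x ≤ X, G 0 + x * (x - 1) / (2 * T) ≤ G x := by
    intro x
    induction x with
    | zero => intro _; simp
    | succ x ih =>
      intro hx
      have h1 := ih (by omega)
      have h2 := (hstep x (by omega)).1
      have h3 : ((x + 1 : ℕ) : ℝ) * (((x + 1 : ℕ) : ℝ) - 1) / (2 * T) =
          x * (x - 1) / (2 * T) + x / T := by
        push_cast
        field_simp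
        ring
      rw [h3]
      linarith
  have hGX : G 0 + 1 ≤ G X := by
    have h1 := hsum X le_rfl
    have h2 : 1 ≤ (X : ℝ) * (X - 1) / (2 * T) := by
      rw [le_div_iff₀ (by positivity), hTw]
      nlinarith
    linarith
  have hN1 := Int.le_ceil (G 0)
  have hN2 := Int.ceil_lt_add_one (G 0)
  obtain ⟨x, hx, h1, h2⟩ := discrete_ivt G (⌈G 0⌉ : ℝ) (4 / w) hN1 (by positivity) X (by linarith)
    (fun x hx => (hstep x hx.le).2)
  have hxX : (x : ℝ) ≤ X := by exact_mod_cast hx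
  refine ⟨T1 + x, x - ⌈G 0⌉, ⌈G 0⌉ - G x, ?_, ?_, h1, h2, ?_⟩
  · push_cast; linarith [(Nat.cast_nonneg x : (0 : ℝ) ≤ x)]
  · push_cast; linarith
  · simp only [hG]
    push_cast
    ring

/-- **choice of `t`**: some `t` near `T` has `√(M / t)` within `6 / Q` below an integer -/
theorem choice (M T w : ℝ) (j : ℕ) (hw : 12 * (2 ^ (j + 2)) ^ 2 ≤ w) (hTw : T = w ^ 2)
    (hT : 3 * 2 ^ (j + 2) / 4 * Real.sqrt (M / T) = T ^ 2) :
    ∃ (t : ℕ) (z : ℤ), T ≤ t ∧ (t : ℝ) ≤ T + 3 / 2 * w + 3 + 2 * 2 ^ (j + 2) ∧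
      0 ≤ z - Real.sqrt (M / t) ∧ z - Real.sqrt (M / t) ≤ 6 / 2 ^ (j + 2) := by
  have hQ4 : (4 : ℝ) ≤ 2 ^ (j + 2) := by
    have : (1 : ℝ) ≤ 2 ^ j := one_le_pow₀ (by norm_num)
    rw [pow_add]; linarith
  have hpow : (2 : ℝ) ^ (j + 3) = 2 * 2 ^ (j + 2) := by ring
  obtain ⟨Q, hQdef⟩ : ∃ Q : ℝ, Q = 2 ^ (j + 2) := ⟨_, rfl⟩
  rw [← hQdef] at hw hT hQ4 hpow ⊢
  have hw192 : 192 ≤ w := by nlinarith
  have hw0 : 0 < w := by linarith
  have hT0 : 0 < T := by rw [hTw]; positivity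
  obtain ⟨t0, P, e, h1, h2, h3, h4, h5⟩ := pick M Q T w (by linarith) hw192 hTw hT
  have ht0 : (0 : ℝ) < t0 := by linarith
  obtain ⟨y0, y1, y2⟩ := y_small hw192 (by linarith : 0 ≤ (t0 : ℝ) - T) h2
  rw [← hTw] at y0 y1 y2
  obtain ⟨k1, k2⟩ := v5_bounds y0 y1
  rw [← kap_eq M Q T t0 hT0 hT h1] at k1 k2
  have hk0 : 1 - 4 / w ≤ kap M Q t0 := by
    have : 0 ≤ 5 / 4 / T := by positivity
    linarith
  have hk1 : kap M Q t0 ≤ 1 := by linarith
  obtain ⟨r, hr, z, hz0, hz1⟩ := steer (j + 3) (by omega) P (Real.sqrt (M / t0) + 1 / Q)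
  rw [hpow] at hz0 hz1
  have hr' : (r : ℝ) ≤ 2 * Q := by
    have : (r : ℝ) < 2 ^ (j + 3) := by exact_mod_cast hr
    linarith
  have hr0 : (0 : ℝ) ≤ r := Nat.cast_nonneg r
  have hQ0 : 0 < Q := by linarith
  have hTQ : 144 * Q ^ 4 ≤ T := by
    rw [hTw]
    nlinarith [pow_le_pow_left₀ (by positivity) hw 2]
  have hzeta0 : 0 ≤ (r : ℝ) / t0 := by positivity
  have hzeta1 : (r : ℝ) / t0 ≤ 1 := by
    rw [div_le_one ht0]
    have : Q ^ 4 ≥ Q * 64 := by nlinarith [pow_le_pow_left₀ (by norm_num) hQ4 3]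
    linarith
  have e1 := v_le hzeta0 hzeta1
  have e2 := le_v hzeta0 hzeta1
  have hA := A_add M t0 r ht0 hr0
  have hA0 : 0 ≤ Real.sqrt (M / t0) := Real.sqrt_nonneg _
  -- the three terms
  have f1 : Real.sqrt (M / t0) * (r / t0 / 2) = (-P - e) * r / Q := by
    rw [← h5]; unfold bet; field_simp
  have f2 : Real.sqrt (M / t0) * (3 * (r / t0) ^ 2 / 8) = kap M Q t0 * r ^ 2 / (2 * Q) := by
    unfold kap; field_simp; ring
  have f3 : Real.sqrt (M / t0) * (5 * (r / t0) ^ 3 / 16) = 5 / 12 * (kap M Q t0 * r ^ 3 / (Q * t0)) := by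
    unfold kap; field_simp; ring
  have g1 := mul_le_mul_of_nonneg_left e1 hA0
  have g2 := mul_le_mul_of_nonneg_left e2 hA0
  rw [← hA] at g1 g2
  have q1 : e * r / Q ≤ 1 / Q := by
    rw [div_le_div_iff_of_pos_right hQ0]
    calc e * r ≤ 4 / w * (2 * Q) := mul_le_mul h4 hr' hr0 (by positivity)
      _ = 8 * Q / w := by ring
      _ ≤ 1 := by rw [div_le_one hw0]; nlinarith
  have q0 : 0 ≤ e * r / Q := by positivity
  have q2 : (1 - kap M Q t0) * r ^ 2 / (2 * Q) ≤ 2 / 3 / Q := by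
    have : (1 - kap M Q t0) * r ^ 2 ≤ 4 / w * (2 * Q) ^ 2 :=
      mul_le_mul (by linarith) (pow_le_pow_left₀ hr0 hr' 2) (by positivity) (by positivity)
    rw [div_le_div_iff₀ (by positivity) hQ0]
    have h6 : 4 / w * (2 * Q) ^ 2 ≤ 4 / 3 := by
      rw [div_mul_eq_mul_div, div_le_div_iff₀ hw0 (by norm_num)]
      nlinarith
    nlinarith
  have q2' : 0 ≤ (1 - kap M Q t0) * r ^ 2 / (2 * Q) := by
    have : 0 ≤ 1 - kap M Q t0 := by linarith
    positivity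
  have q3 : 5 / 12 * (kap M Q t0 * r ^ 3 / (Q * t0)) ≤ 1 / 3 / Q := by
    have h6 : kap M Q t0 * r ^ 3 ≤ 1 * (2 * Q) ^ 3 :=
      mul_le_mul hk1 (pow_le_pow_left₀ hr0 hr' 3) (by positivity) (by norm_num)
    have h7 : kap M Q t0 * r ^ 3 / (Q * t0) ≤ (1 * (2 * Q) ^ 3) / (Q * (144 * Q ^ 4)) :=
      div_le_div₀ (by positivity) h6 (by positivity)
        (mul_le_mul_of_nonneg_left (hTQ.trans h1) hQ0.le)
    have h8 : (1 * (2 * Q) ^ 3) / (Q * (144 * Q ^ 4)) = 1 / 18 / Q * (1 / Q) := by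
      field_simp; norm_num
    have h9 : 1 / 18 / Q * (1 / Q) ≤ 1 / 18 / Q * 1 := by
      apply mul_le_mul_of_nonneg_left _ (by positivity)
      rw [div_le_one hQ0]; linarith
    have h10 : 1 / 18 / Q * 1 * (5 / 12) ≤ 1 / 3 / Q := by
      rw [show 1 / 18 / Q * 1 * (5 / 12) = (5 / 216) / Q by ring]
      exact div_le_div_of_nonneg_right (by norm_num) hQ0.le
    linarith
  have upper : Real.sqrt (M / (t0 + r)) ≤ Real.sqrt (M / t0) + ((r : ℝ) ^ 2 + 2 * P * r) / (2 * Q) + 1 / Q := by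
    have h6 : Real.sqrt (M / t0) * (1 - r / t0 / 2 + 3 * (r / t0) ^ 2 / 8) =
        Real.sqrt (M / t0) - Real.sqrt (M / t0) * (r / t0 / 2)
          + Real.sqrt (M / t0) * (3 * (r / t0) ^ 2 / 8) := by ring
    rw [h6, f1, f2] at g1
    have h7 : ((r : ℝ) ^ 2 + 2 * P * r) / (2 * Q) = -((-P - e) * r / Q) + kap M Q t0 * r ^ 2 / (2 * Q)
        - e * r / Q + (1 - kap M Q t0) * r ^ 2 / (2 * Q) := by
      field_simp; ring
    rw [h7]
    linarith
  have lower : Real.sqrt (M / t0) + ((r : ℝ) ^ 2 + 2 * P * r) / (2 * Q) - 1 / Q ≤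
      Real.sqrt (M / (t0 + r)) := by
    have h6 : Real.sqrt (M / t0) * (1 - r / t0 / 2 + 3 * (r / t0) ^ 2 / 8 - 5 * (r / t0) ^ 3 / 16) =
        Real.sqrt (M / t0) - Real.sqrt (M / t0) * (r / t0 / 2)
          + Real.sqrt (M / t0) * (3 * (r / t0) ^ 2 / 8)
          - Real.sqrt (M / t0) * (5 * (r / t0) ^ 3 / 16) := by ring
    rw [h6, f1, f2, f3] at g2
    have h7 : ((r : ℝ) ^ 2 + 2 * P * r) / (2 * Q) = -((-P - e) * r / Q) + kap M Q t0 * r ^ 2 / (2 * Q)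
        - e * r / Q + (1 - kap M Q t0) * r ^ 2 / (2 * Q) := by
      field_simp; ring
    have h8 : 2 / 3 / Q + 1 / 3 / Q = 1 / Q := by ring
    rw [h7]
    linarith
  refine ⟨t0 + r, z, ?_, ?_, ?_, ?_⟩
  · push_cast; linarith
  · push_cast; linarith
  · push_cast
    linarith
  · push_cast
    have h8 : 8 / (2 * Q) = 4 / Q := by field_simp; norm_num
    rw [h8] at hz1
    have h9 : 6 / Q = 4 / Q + 1 / Q + 1 / Q := by ring
    rw [h9]
    linarith

end Pool.Agent.S718
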