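import Mathlib

set_option autoImplicit false

namespace Pool.Agent.S718

/-- a function that moves by small steps meets every value between its ends -/
lemma discrete_ivt (G : ℕ → ℝ) (N e : ℝ) (h0 : G 0 ≤ N) (he : 0 ≤ e) (X : ℕ) (hX : N ≤ G X)
    (hs : ∀ x < X, G (x + 1) - G x ≤ e) : ∃ x ≤ X, 0 ≤ N - G x ∧ N - G x ≤ e := by
  induction X with
  | zero => exact ⟨0, le_rfl, by linarith, by linarith⟩
  | succ X ih =>
    by_cases h : N ≤ G X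
    · obtain ⟨x, hx, h1⟩ := ih h (fun x hx => hs x (by omega))
      exact ⟨x, by omega, h1⟩
    · have h1 := hs X (by omega)
      exact ⟨X, by omega, by linarith, by linarith⟩

/-- `(1 + z)^(-1/2)` -/
noncomputable def v (z : ℝ) : ℝ := 1 / Real.sqrt (1 + z)

lemma v_pos {z : ℝ} (hz : 0 ≤ z) : 0 < v z := by unfold v; positivity

lemma v_sq {z : ℝ} (hz : 0 ≤ z) : v z ^ 2 * (1 + z) = 1 := by
  unfold v
  rw [div_pow, Real.sq_sqrt (by linarith)]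
  field_simp

lemma le_of_sq {a b : ℝ} (hb : 0 ≤ b) (h : a ^ 2 ≤ b ^ 2) : a ≤ b :=
  (le_abs_self a).trans (abs_le_of_sq_le_sq h hb)

lemma v_le {z : ℝ} (hz : 0 ≤ z) (hz1 : z ≤ 1) : v z ≤ 1 - z / 2 + 3 * z ^ 2 / 8 := by
  apply le_of_sq (by nlinarith)
  have h := v_sq hz
  have h1 : 1 ≤ (1 - z / 2 + 3 * z ^ 2 / 8) ^ 2 * (1 + z) := by
    have h2 : (1 - z / 2 + 3 * z ^ 2 / 8) ^ 2 * (1 + z) - 1 =
      z ^ 3 * (5 / 8 - 15 / 64 * z + 9 / 64 * z ^ 2) := by ring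
    have h3 : 0 ≤ z ^ 3 * (5 / 8 - 15 / 64 * z + 9 / 64 * z ^ 2) :=
      mul_nonneg (by positivity) (by nlinarith [sq_nonneg z])
    linarith
  exact le_of_mul_le_mul_right (h.le.trans h1) (by linarith)

lemma le_v {z : ℝ} (hz : 0 ≤ z) (hz1 : z ≤ 1) :
    1 - z / 2 + 3 * z ^ 2 / 8 - 5 * z ^ 3 / 16 ≤ v z := by
  apply le_of_sq (v_pos hz).le
  have h := v_sq hz
  have h1 : (1 - z / 2 + 3 * z ^ 2 / 8 - 5 * z ^ 3 / 16) ^ 2 * (1 + z) ≤ 1 := by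
    have h2 : 1 - (1 - z / 2 + 3 * z ^ 2 / 8 - 5 * z ^ 3 / 16) ^ 2 * (1 + z) =
      z ^ 4 * (35 / 64 - 14 / 64 * z + (15 / 64 - 25 / 256) * z ^ 2 - 25 / 256 * z ^ 3) := by ring
    have h4 : z ^ 3 ≤ z := by nlinarith [mul_nonneg hz hz, mul_nonneg hz (mul_nonneg hz hz)]
    have h3 : 0 ≤ z ^ 4 * (35 / 64 - 14 / 64 * z + (15 / 64 - 25 / 256) * z ^ 2 - 25 / 256 * z ^ 3) :=
      mul_nonneg (by positivity) (by nlinarith [sq_nonneg z])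
    linarith
  exact le_of_mul_le_mul_right (h1.trans h.ge) (by linarith)

lemma v3_bounds {z : ℝ} (hz : 0 ≤ z) (hz1 : z ≤ 1 / 2) :
    1 - 3 * z / 2 ≤ v z ^ 3 ∧ v z ^ 3 ≤ 1 - 3 * z / 2 + 15 * z ^ 2 / 8 := by
  have h := v_sq hz
  have hv := v_pos hz
  have h3 : (v z ^ 3) ^ 2 * (1 + z) ^ 3 = 1 := by
    have : (v z ^ 3) ^ 2 * (1 + z) ^ 3 = (v z ^ 2 * (1 + z)) ^ 3 := by ring
    rw [this, h, one_pow]
  have hp : 0 < (1 + z) ^ 3 := by positivity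
  constructor
  · apply le_of_sq (by positivity)
    have h1 : (1 - 3 * z / 2) ^ 2 * (1 + z) ^ 3 ≤ 1 := by
      have h2 : 1 - (1 - 3 * z / 2) ^ 2 * (1 + z) ^ 3 =
        z ^ 2 * (15 / 4 + 5 / 4 * z - 15 / 4 * z ^ 2 - 9 / 4 * z ^ 3) := by ring
      have h4 : z ^ 2 ≤ 1 / 2 * z := by nlinarith
      have h5 : z ^ 3 ≤ 1 / 4 * z := by nlinarith [mul_nonneg hz hz]
      have h3 : 0 ≤ z ^ 2 * (15 / 4 + 5 / 4 * z - 15 / 4 * z ^ 2 - 9 / 4 * z ^ 3) :=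
        mul_nonneg (by positivity) (by linarith)
      linarith
    exact le_of_mul_le_mul_right (h1.trans h3.ge) hp
  · apply le_of_sq (by nlinarith)
    have h1 : 1 ≤ (1 - 3 * z / 2 + 15 * z ^ 2 / 8) ^ 2 * (1 + z) ^ 3 := by
      have h2 : (1 - 3 * z / 2 + 15 * z ^ 2 / 8) ^ 2 * (1 + z) ^ 3 - 1 =
        z ^ 3 * (35 / 8 + 105 / 64 * z - 21 / 64 * z ^ 2 + 315 / 64 * z ^ 3 + 225 / 64 * z ^ 4) := by ring
      have h4 : z ^ 2 ≤ 1 / 2 * z := by nlinarith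
      have h3 : 0 ≤ z ^ 3 * (35 / 8 + 105 / 64 * z - 21 / 64 * z ^ 2 + 315 / 64 * z ^ 3 + 225 / 64 * z ^ 4) := by
        apply mul_nonneg (by positivity)
        have : 0 ≤ z ^ 3 := by positivity
        have : 0 ≤ z ^ 4 := by positivity
        nlinarith
      linarith
    exact le_of_mul_le_mul_right (h3.le.trans h1) hp

lemma v5_bounds {z : ℝ} (hz : 0 ≤ z) (hz1 : z ≤ 1 / 10) :
    1 - 5 * z / 2 ≤ v z ^ 5 ∧ v z ^ 5 ≤ 1 - z := by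
  have h := v_sq hz
  have hv := v_pos hz
  have h3 : (v z ^ 5) ^ 2 * (1 + z) ^ 5 = 1 := by
    have : (v z ^ 5) ^ 2 * (1 + z) ^ 5 = (v z ^ 2 * (1 + z)) ^ 5 := by ring
    rw [this, h, one_pow]
  have hp : 0 < (1 + z) ^ 5 := by positivity
  have e2 : z ^ 2 ≤ 1 / 10 * z := by nlinarith
  have e3 : z ^ 3 ≤ 1 / 100 * z := by nlinarith [mul_nonneg hz hz]
  have e4 : z ^ 4 ≤ 1 / 1000 * z := by nlinarith [mul_nonneg hz (mul_nonneg hz hz)]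
  have e5 : z ^ 5 ≤ 1 / 10000 * z := by
    nlinarith [mul_nonneg hz (mul_nonneg hz (mul_nonneg hz hz))]
  have p2 : 0 ≤ z ^ 2 := by positivity
  have p3 : 0 ≤ z ^ 3 := by positivity
  have p4 : 0 ≤ z ^ 4 := by positivity
  have p5 : 0 ≤ z ^ 5 := by positivity
  constructor
  · apply le_of_sq (by positivity)
    have h1 : (1 - 5 * z / 2) ^ 2 * (1 + z) ^ 5 ≤ 1 := by
      have h2 : 1 - (1 - 5 * z / 2) ^ 2 * (1 + z) ^ 5 =
        z ^ 2 * (35 / 4 + 35 / 4 * z - 35 / 2 * z ^ 2 - 77 / 2 * z ^ 3 - 105 / 4 * z ^ 4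
          - 25 / 4 * z ^ 5) := by ring
      have h3 : 0 ≤ z ^ 2 * (35 / 4 + 35 / 4 * z - 35 / 2 * z ^ 2 - 77 / 2 * z ^ 3 - 105 / 4 * z ^ 4
          - 25 / 4 * z ^ 5) :=
        mul_nonneg p2 (by linarith)
      linarith
    exact le_of_mul_le_mul_right (h1.trans h3.ge) hp
  · apply le_of_sq (by linarith)
    have h1 : 1 ≤ (1 - z) ^ 2 * (1 + z) ^ 5 := by
      have h2 : (1 - z) ^ 2 * (1 + z) ^ 5 - 1 =
        z * (3 + z - 5 * z ^ 2 - 5 * z ^ 3 + z ^ 4 + 3 * z ^ 5 + z ^ 6) := by ring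
      have h3 : 0 ≤ z * (3 + z - 5 * z ^ 2 - 5 * z ^ 3 + z ^ 4 + 3 * z ^ 5 + z ^ 6) := by
        apply mul_nonneg hz
        have : 0 ≤ z ^ 6 := by positivity
        linarith
      linarith
    exact le_of_mul_le_mul_right (h3.le.trans h1) hp

end Pool.Agent.S718
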